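import Pool.Agent.H74.TQ.Stmts

set_option autoImplicit false

namespace Pool.TQ

open TMLib Polynomial

namespace CHNP

section calc0

variable {β : Type} [Enc β]

lemma exists_nat {R : β → ℕ → Prop} (hR : NPp fun p : β × ℕ => R p.1 p.2) {q : β → ℕ}
    (hq : PTime q) : NPp fun a => ∃ b : ℕ, b ≤ q a ∧ R a b := by
  refine (NPp.exists_le hR (q := fun a => 2 * q a + 1)
    (PTime.add (PTime.mul (PTime.const _) hq) (PTime.const _))).congr fun a => ?_
  constructor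
  · rintro ⟨b, hb, hb'⟩
    exact ⟨b, by rw [sz_nat]; omega, hb'⟩
  · rintro ⟨b, hb, hb'⟩
    exact ⟨b, by rw [sz_nat] at hb; omega, hb'⟩

lemma exists_str {R : β → List Bool → Prop} (hR : NPp fun p : β × List Bool => R p.1 p.2)
    {q : β → ℕ} (hq : PTime q) : NPp fun a => ∃ b : List Bool, b.length = q a ∧ R a b := by
  refine (NPp.exists_le (R := fun a (b : List Bool) => b.length = q a ∧ R a b) ?_
    (q := fun a => 1 + q a * 4)
    (PTime.add (PTime.const _) (PTime.mul hq (PTime.const _)))).congr fun a => ?_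
  · refine NPp.and (NPp.of_ptime (PTime.natEq (PTime.length (PTime.snd PTime.id))
      (hq.comp (PTime.fst PTime.id)))) hR
  · constructor
    · rintro ⟨b, hb, hb'⟩
      refine ⟨b, ?_, hb, hb'⟩
      have h4 := sz_list_le b (q a) 3 hb.le (fun b _ => sz_bool_le b)
      omega
    · rintro ⟨b, -, hb, hb'⟩
      exact ⟨b, hb, hb'⟩

lemma forall_lt {R : β → ℕ → Prop} (hR : NPp fun p : β × ℕ => R p.1 p.2) {n : β → ℕ}
    (hn : PTime n) : NPp fun a => ∀ j < n a, R a j := by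
  refine (NPp.forall_mem hR (l := fun a => List.range (n a)) (PTime.range hn)).congr fun a => ?_
  simp only [List.mem_range]

lemma imp_lt {f g : β → ℕ} {P : β → Prop} (hf : PTime f) (hg : PTime g) (hP : NPp P) :
    NPp fun a => f a < g a → P a := by
  refine (NPp.or (NPp.of_ptime (P := fun a => g a ≤ f a) (PTime.le hg hf)) hP).congr fun a => ?_
  constructor
  · intro h
    rcases lt_or_ge (f a) (g a) with h1 | h1
    · exact Or.inr (h h1)
    · exact Or.inl h1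
  · rintro (h | h) h1
    · omega
    · exact h

lemma lt' {f g : β → ℕ} (hf : PTime f) (hg : PTime g) : NPp fun a => f a < g a :=
  NPp.of_ptime (PTime.lt hf hg)

lemma le' {f g : β → ℕ} (hf : PTime f) (hg : PTime g) : NPp fun a => f a ≤ g a :=
  NPp.of_ptime (PTime.le hf hg)

lemma natEq' {f g : β → ℕ} (hf : PTime f) (hg : PTime g) : NPp fun a => f a = g a :=
  NPp.of_ptime (PTime.natEq hf hg)

lemma boolEq {f : β → Bool} (hf : PTime f) (v : Bool) : NPp fun a => f a = v :=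
  NPp.of_ptime (PTime.eq hf (PTime.const v))

end calc0

section chain

variable {c : Ctx} (hK : KeyProps c) {α : Type} [Enc α] {Q : α × List Bool → Form}
  (hQ : PTime Q) {β : Type} [Enc β]

include hK hQ

lemma nppCp {m : β → ℕ} {x : β → α} {w : β → List Bool} (hm : PTime m) (hx : PTime x)
    (hw : PTime w) : NPp fun b => Cp c Q (m b) (x b) (w b) := by
  unfold Cp
  refine forall_lt (R := fun b j => ((w b).getD j false = true ∧ Sat (Q (x b, (w b).take j))) ∨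
    ((w b).getD j false = false ∧ c.E (m b) (Q (x b, (w b).take j)))) ?_ (PTime.length hw)
  have h1 : PTime fun p : β × ℕ => (w p.1).getD p.2 false :=
    PTime.listGetD (hw.comp (PTime.fst PTime.id)) (PTime.snd PTime.id) (PTime.const _)
  have h2 : PTime fun p : β × ℕ => Q (x p.1, (w p.1).take p.2) :=
    hQ.comp (PTime.pair (hx.comp (PTime.fst PTime.id))
      (PTime.take (PTime.snd PTime.id) (hw.comp (PTime.fst PTime.id))))
  exact NPp.or (NPp.and (boolEq h1 _) (npp_sat' h2)) (NPp.and (boolEq h1 _)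
    (hK.nppE.comp (PTime.pair (hm.comp (PTime.fst PTime.id)) h2)))

lemma nppFull {m T i : β → ℕ} {x : β → α} {w : β → List Bool} (hm : PTime m) (hT : PTime T)
    (hi : PTime i) (hx : PTime x) (hw : PTime w) :
    NPp fun b => Full c Q (m b) (x b) (T b) (i b) (w b) := by
  unfold Full
  refine NPp.and (natEq' (PTime.length hw) hT) (NPp.and (lt' hi hT) (NPp.and
    (nppCp hK hQ hm hx (PTime.take hi hw)) (NPp.and
    (boolEq (PTime.listGetD hw hi (PTime.const _)) _) ?_)))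
  refine forall_lt (R := fun b j => i b < j →
    ((w b).getD j false = true ∧ Sat (Q (x b, (w b).take j))) ∨
    ((w b).getD j false = false ∧ c.PS (Q (x b, (w b).take (i b))) (Q (x b, (w b).take j)))) ?_ hT
  refine imp_lt (hi.comp (PTime.fst PTime.id)) (PTime.snd PTime.id) ?_
  have h1 : PTime fun p : β × ℕ => (w p.1).getD p.2 false :=
    PTime.listGetD (hw.comp (PTime.fst PTime.id)) (PTime.snd PTime.id) (PTime.const _)
  have h2 : PTime fun p : β × ℕ => Q (x p.1, (w p.1).take p.2) :=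
    hQ.comp (PTime.pair (hx.comp (PTime.fst PTime.id))
      (PTime.take (PTime.snd PTime.id) (hw.comp (PTime.fst PTime.id))))
  have h3 : PTime fun p : β × ℕ => Q (x p.1, (w p.1).take (i p.1)) :=
    hQ.comp (PTime.pair (hx.comp (PTime.fst PTime.id))
      (PTime.take (hi.comp (PTime.fst PTime.id)) (hw.comp (PTime.fst PTime.id))))
  exact NPp.or (NPp.and (boolEq h1 _) (npp_sat' h2)) (NPp.and (boolEq h1 _)
    (hK.nppPS.comp (PTime.pair h3 h2)))

omit hK hQ in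
lemma ptime_bb {CF : α × ℕ → Form} (hCF : PTime CF) {x : β → α} {i l : β → ℕ} (hx : PTime x)
    (hi : PTime i) (hl : PTime l) : PTime fun b => bb c CF (x b) (i b) (l b) :=
  c.pb.comp (PTime.pair (hCF.comp (PTime.pair hx hi)) (hCF.comp (PTime.pair hx hl)))

omit hK hQ in
lemma npp_GG {CF : α × ℕ → Form} (hCF : PTime CF) {x : β → α} {i l : β → ℕ} (hx : PTime x)
    (hi : PTime i) (hl : PTime l) : NPp fun b => Sat (GG c CF (x b) (i b) (l b)) :=
  npp_sat' (c.pG.comp (PTime.pair (hCF.comp (PTime.pair hx hi)) (hCF.comp (PTime.pair hx hl))))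

end chain

section main

variable {c : Ctx} (hK : KeyProps c) {α : Type} [Enc α] {Q : α × List Bool → Form}
  {O : α × List Bool → Bool} {m T : α → ℕ} (hQ : PTime Q) (hO : PTime O) (hm : PTime m)
  (hT : PTime T)

include hK hQ hm hT

lemma ci : NPp (fun p : α × ℕ => p.2 ≤ T p.1 ∧ Ci c Q (m p.1) p.1 p.2) := by
  refine NPp.and (le' (PTime.snd PTime.id) (hT.comp (PTime.fst PTime.id))) ?_
  unfold Ci
  refine exists_str (R := fun (p : α × ℕ) w => Cp c Q (m p.1) p.1 w) ?_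
    (PTime.snd PTime.id)
  exact nppCp hK hQ (hm.comp (PTime.fst (PTime.fst PTime.id))) (PTime.fst (PTime.fst PTime.id))
    (PTime.snd PTime.id)

include hO

lemma xx {CF : α × ℕ → Form} (hCF : PTime CF) (v : Bool) :
    NPp (fun x => XX c Q O CF (m x) (T x) v x) := by
  unfold XX
  refine NPp.or ?_ ?_
  · refine exists_str (R := fun (x : α) w => Cp c Q (m x) x w ∧ O (x, w) = v) ?_ hT
    exact NPp.and (nppCp hK hQ (hm.comp (PTime.fst PTime.id)) (PTime.fst PTime.id)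
      (PTime.snd PTime.id)) (boolEq hO v)
  · -- environment `(((x, i), w), i')`
    have q1 : PTime fun p : ((α × ℕ) × List Bool) × ℕ => p.1.1.1 :=
      PTime.fst (PTime.fst (PTime.fst PTime.id))
    have q2 : PTime fun p : ((α × ℕ) × List Bool) × ℕ => p.1.1.2 :=
      PTime.snd (PTime.fst (PTime.fst PTime.id))
    have q3 : PTime fun p : ((α × ℕ) × List Bool) × ℕ => p.1.2 :=
      PTime.snd (PTime.fst PTime.id)
    have q4 : PTime fun p : ((α × ℕ) × List Bool) × ℕ => p.2 := PTime.snd PTime.id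
    have h0 : NPp (fun p : ((α × ℕ) × List Bool) × ℕ =>
        p.1.1.2 < T p.1.1.1 ∧ Full c Q (m p.1.1.1) p.1.1.1 (T p.1.1.1) p.1.1.2 p.1.2 ∧
        O (p.1.1.1, p.1.2) = v ∧ p.2 ≤ p.1.1.2 ∧
        bb c CF p.1.1.1 p.2 (p.1.1.2 + 1) = false ∧
        Sat (GG c CF p.1.1.1 p.2 (p.1.1.2 + 1))) := by
      refine NPp.and (lt' q2 (hT.comp q1)) (NPp.and
        (nppFull hK hQ (hm.comp q1) (hT.comp q1) q2 q1 q3) (NPp.and
        (boolEq (hO.comp (PTime.pair q1 q3)) v) (NPp.and (le' q4 q2) (NPp.and ?_ ?_))))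
      · exact boolEq (ptime_bb hCF q1 q4 (PTime.succ q2)) _
      · exact npp_GG hCF q1 q4 (PTime.succ q2)
    have h1 : NPp (fun p : (α × ℕ) × List Bool => ∃ i' : ℕ, i' ≤ p.1.2 ∧
        (p.1.2 < T p.1.1 ∧ Full c Q (m p.1.1) p.1.1 (T p.1.1) p.1.2 p.2 ∧
        O (p.1.1, p.2) = v ∧ i' ≤ p.1.2 ∧
        bb c CF p.1.1 i' (p.1.2 + 1) = false ∧
        Sat (GG c CF p.1.1 i' (p.1.2 + 1)))) :=
      exists_nat (R := fun (p : (α × ℕ) × List Bool) i' =>
        (p.1.2 < T p.1.1 ∧ Full c Q (m p.1.1) p.1.1 (T p.1.1) p.1.2 p.2 ∧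
        O (p.1.1, p.2) = v ∧ i' ≤ p.1.2 ∧
        bb c CF p.1.1 i' (p.1.2 + 1) = false ∧
        Sat (GG c CF p.1.1 i' (p.1.2 + 1)))) h0 (PTime.snd (PTime.fst PTime.id))
    have h2 := exists_str (β := α × ℕ) (R := fun (p : α × ℕ) (w : List Bool) =>
      ∃ i' : ℕ, i' ≤ p.2 ∧
        (p.2 < T p.1 ∧ Full c Q (m p.1) p.1 (T p.1) p.2 w ∧
        O (p.1, w) = v ∧ i' ≤ p.2 ∧
        bb c CF p.1 i' (p.2 + 1) = false ∧
        Sat (GG c CF p.1 i' (p.2 + 1)))) h1 (hT.comp (PTime.fst PTime.id))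
    have h3 := exists_nat (β := α) (R := fun (x : α) (i : ℕ) =>
      ∃ w : List Bool, w.length = T x ∧ ∃ i' : ℕ, i' ≤ i ∧
        (i < T x ∧ Full c Q (m x) x (T x) i w ∧
        O (x, w) = v ∧ i' ≤ i ∧
        bb c CF x i' (i + 1) = false ∧
        Sat (GG c CF x i' (i + 1)))) h2 hT
    refine h3.congr fun x => ?_
    constructor
    · rintro ⟨i, w, i', a1, a2, a3, a4, a5, a6⟩
      exact ⟨i, a1.le, w, a2.1, i', a4, a1, a2, a3, a4, a5, a6⟩
    · rintro ⟨i, -, w, -, i', -, a1, a2, a3, a4, a5, a6⟩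
      exact ⟨i, w, i', a1, a2, a3, a4, a5, a6⟩

lemma yy {CF : α × ℕ → Form} (hCF : PTime CF) (v : Bool) :
    NPp (fun x => YY c Q O CF (m x) (T x) v x) := by
  unfold YY
  -- environment `(((x, i), w), h)`
  have q1 : PTime fun p : ((α × ℕ) × List Bool) × ℕ => p.1.1.1 :=
    PTime.fst (PTime.fst (PTime.fst PTime.id))
  have q2 : PTime fun p : ((α × ℕ) × List Bool) × ℕ => p.1.1.2 :=
    PTime.snd (PTime.fst (PTime.fst PTime.id))
  have q3 : PTime fun p : ((α × ℕ) × List Bool) × ℕ => p.1.2 :=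
    PTime.snd (PTime.fst PTime.id)
  have q4 : PTime fun p : ((α × ℕ) × List Bool) × ℕ => p.2 := PTime.snd PTime.id
  have a1 : NPp (fun p : ((α × ℕ) × List Bool) × ℕ =>
      ∀ i' < p.2, ∃ l ≤ T p.1.1.1, i' < l ∧ bb c CF p.1.1.1 i' l = true) := by
    refine forall_lt (R := fun (p : ((α × ℕ) × List Bool) × ℕ) i' =>
      ∃ l ≤ T p.1.1.1, i' < l ∧ bb c CF p.1.1.1 i' l = true) ?_ q4
    refine exists_nat (β := (((α × ℕ) × List Bool) × ℕ) × ℕ) (R := fun p l =>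
      p.2 < l ∧ bb c CF p.1.1.1.1 p.2 l = true) ?_ (hT.comp (q1.comp (PTime.fst PTime.id)))
    refine NPp.and (lt' (PTime.snd (PTime.fst PTime.id)) (PTime.snd PTime.id)) ?_
    exact boolEq (ptime_bb hCF (q1.comp (PTime.fst (PTime.fst PTime.id)))
      (PTime.snd (PTime.fst PTime.id)) (PTime.snd PTime.id)) _
  have a2 : NPp (fun p : ((α × ℕ) × List Bool) × ℕ =>
      ∀ l ≤ T p.1.1.1, p.2 < l → bb c CF p.1.1.1 p.2 l = false) := by
    have := forall_lt (β := ((α × ℕ) × List Bool) × ℕ) (R := fun p l =>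
      p.2 < l → bb c CF p.1.1.1 p.2 l = false) (imp_lt (PTime.snd (PTime.fst PTime.id))
      (PTime.snd PTime.id) (boolEq (ptime_bb hCF (q1.comp (PTime.fst PTime.id))
        (PTime.snd (PTime.fst PTime.id)) (PTime.snd PTime.id)) _))
      (PTime.succ (hT.comp q1))
    refine this.congr fun p => ?_
    simp only [Nat.lt_succ_iff]
  have a3 : NPp (fun p : ((α × ℕ) × List Bool) × ℕ =>
      ∀ i' < p.2, p.1.1.2 < i' → ∃ l ≤ T p.1.1.1, i' < l ∧ bb c CF p.1.1.1 i' l = true ∧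
        Sat (GG c CF p.1.1.1 i' l)) := by
    refine forall_lt (R := fun (p : ((α × ℕ) × List Bool) × ℕ) i' =>
      p.1.1.2 < i' → ∃ l ≤ T p.1.1.1, i' < l ∧ bb c CF p.1.1.1 i' l = true ∧
        Sat (GG c CF p.1.1.1 i' l)) ?_ q4
    refine imp_lt (q2.comp (PTime.fst PTime.id)) (PTime.snd PTime.id) ?_
    refine exists_nat (β := (((α × ℕ) × List Bool) × ℕ) × ℕ) (R := fun p l =>
      p.2 < l ∧ bb c CF p.1.1.1.1 p.2 l = true ∧ Sat (GG c CF p.1.1.1.1 p.2 l)) ?_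
      (hT.comp (q1.comp (PTime.fst PTime.id)))
    refine NPp.and (lt' (PTime.snd (PTime.fst PTime.id)) (PTime.snd PTime.id)) (NPp.and ?_ ?_)
    · exact boolEq (ptime_bb hCF (q1.comp (PTime.fst (PTime.fst PTime.id)))
        (PTime.snd (PTime.fst PTime.id)) (PTime.snd PTime.id)) _
    · exact npp_GG hCF (q1.comp (PTime.fst (PTime.fst PTime.id)))
        (PTime.snd (PTime.fst PTime.id)) (PTime.snd PTime.id)
  have h0 : NPp (fun p : ((α × ℕ) × List Bool) × ℕ =>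
      p.1.1.2 < p.2 ∧ p.2 ≤ T p.1.1.1 ∧
      Full c Q (m p.1.1.1) p.1.1.1 (T p.1.1.1) p.1.1.2 p.1.2 ∧
      O (p.1.1.1, p.1.2) = v ∧
      (∀ i' < p.2, ∃ l ≤ T p.1.1.1, i' < l ∧ bb c CF p.1.1.1 i' l = true) ∧
      (∀ l ≤ T p.1.1.1, p.2 < l → bb c CF p.1.1.1 p.2 l = false) ∧
      ∀ i' < p.2, p.1.1.2 < i' → ∃ l ≤ T p.1.1.1, i' < l ∧ bb c CF p.1.1.1 i' l = true ∧
        Sat (GG c CF p.1.1.1 i' l)) :=
    NPp.and (lt' q2 q4) (NPp.and (le' q4 (hT.comp q1)) (NPp.and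
      (nppFull hK hQ (hm.comp q1) (hT.comp q1) q2 q1 q3) (NPp.and
      (boolEq (hO.comp (PTime.pair q1 q3)) v) (NPp.and a1 (NPp.and a2 a3)))))
  have h1 := exists_nat (β := (α × ℕ) × List Bool) (R := fun p h =>
      p.1.2 < h ∧ h ≤ T p.1.1 ∧
      Full c Q (m p.1.1) p.1.1 (T p.1.1) p.1.2 p.2 ∧
      O (p.1.1, p.2) = v ∧
      (∀ i' < h, ∃ l ≤ T p.1.1, i' < l ∧ bb c CF p.1.1 i' l = true) ∧
      (∀ l ≤ T p.1.1, h < l → bb c CF p.1.1 h l = false) ∧
      ∀ i' < h, p.1.2 < i' → ∃ l ≤ T p.1.1, i' < l ∧ bb c CF p.1.1 i' l = true ∧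
        Sat (GG c CF p.1.1 i' l)) h0 (hT.comp (PTime.fst (PTime.fst PTime.id)))
  have h2 := exists_str (β := α × ℕ) (R := fun p w => ∃ h : ℕ, h ≤ T p.1 ∧
      (p.2 < h ∧ h ≤ T p.1 ∧
      Full c Q (m p.1) p.1 (T p.1) p.2 w ∧
      O (p.1, w) = v ∧
      (∀ i' < h, ∃ l ≤ T p.1, i' < l ∧ bb c CF p.1 i' l = true) ∧
      (∀ l ≤ T p.1, h < l → bb c CF p.1 h l = false) ∧
      ∀ i' < h, p.2 < i' → ∃ l ≤ T p.1, i' < l ∧ bb c CF p.1 i' l = true ∧
        Sat (GG c CF p.1 i' l))) h1 (hT.comp (PTime.fst PTime.id))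
  have h3 := exists_nat (β := α) (R := fun x i => ∃ w : List Bool, w.length = T x ∧
      ∃ h : ℕ, h ≤ T x ∧
      (i < h ∧ h ≤ T x ∧
      Full c Q (m x) x (T x) i w ∧
      O (x, w) = v ∧
      (∀ i' < h, ∃ l ≤ T x, i' < l ∧ bb c CF x i' l = true) ∧
      (∀ l ≤ T x, h < l → bb c CF x h l = false) ∧
      ∀ i' < h, i < i' → ∃ l ≤ T x, i' < l ∧ bb c CF x i' l = true ∧
        Sat (GG c CF x i' l))) h2 hT
  refine h3.congr fun x => ?_
  constructor
  · rintro ⟨i, w, h, b1, b2, b3, b4⟩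
    exact ⟨i, by omega, w, b3.1, h, b2, b1, b2, b3, b4⟩
  · rintro ⟨i, -, w, -, h, -, b1, b2, b3, b4⟩
    exact ⟨i, w, h, b1, b2, b3, b4⟩

end main

end CHNP

theorem chnp : S_CHNP := fun _ hK _ _ _ _ _ _ _ hQ hO hm hT =>
  ⟨CHNP.ci hK hQ hm hT, fun _ hCF v => CHNP.xx hK hQ hO hm hT hCF v,
    fun _ hCF v => CHNP.yy hK hQ hO hm hT hCF v⟩

end Pool.TQ
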