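import Pool.Agent.H74.TQ.StmtsF

set_option autoImplicit false

namespace Pool.TQ

open TMLib Polynomial N68a2faeb N487b59b3 Pool.TwoQueries

namespace SATHARD

/-- symbols of a formula in reverse Polish notation -/
def toks : BForm → List ℕ
  | .var n => [n + 3]
  | .neg F => toks F ++ [0]
  | .and F G => toks F ++ toks G ++ [1]
  | .or F G => toks F ++ toks G ++ [2]

lemma encode_eq (F : BForm) : F.encode = (toks F).flatMap block := by
  induction F with
  | var n => simp [BForm.encode, toks]
  | neg F ih => simp [BForm.encode, toks, ih]
  | and F G ihF ihG => simp [BForm.encode, toks, ihF, ihG]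
  | or F G ihF ihG => simp [BForm.encode, toks, ihF, ihG]

/-- one step of the stack machine -/
def stp (v : ℕ → Bool) : List Bool → ℕ → List Bool
  | a :: s, 0 => (!a) :: s
  | a :: b :: s, 1 => (b && a) :: s
  | a :: b :: s, 2 => (b || a) :: s
  | s, n + 3 => v n :: s
  | _, _ => []

lemma stp_var (v : ℕ → Bool) (s : List Bool) (n : ℕ) : stp v s (n + 3) = v n :: s := by
  cases s with
  | nil => rfl
  | cons a s => cases s <;> rfl

lemma fold_toks (v : ℕ → Bool) (F : BForm) : ∀ s : List Bool,
    (toks F).foldl (stp v) s = F.eval v :: s := by
  induction F with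
  | var n => intro s; simp [toks, BForm.eval, stp_var]
  | neg F ih => intro s; simp [toks, BForm.eval, ih, stp]
  | and F G ihF ihG => intro s; simp [toks, BForm.eval, ihF, ihG, stp]
  | or F G ihF ihG => intro s; simp [toks, BForm.eval, ihF, ihG, stp]

lemma takeWhile_block (k : ℕ) (r : List Bool) :
    (block k ++ r).takeWhile (fun b => b) = List.replicate k true := by
  unfold block
  induction k with
  | zero => simp
  | succ k ih =>
    rw [List.replicate_succ]
    simp only [List.cons_append, List.takeWhile_cons]
    simp only [List.append_assoc] at ih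
    simp

lemma flatMap_inj : ∀ ks ls : List ℕ, ks.flatMap block = ls.flatMap block → ks = ls := by
  intro ks
  induction ks with
  | nil =>
    intro ls h
    cases ls with
    | nil => rfl
    | cons l ls =>
      exfalso
      have := congrArg List.length h
      simp [block] at this
  | cons k ks ih =>
    intro ls h
    cases ls with
    | nil =>
      exfalso
      have := congrArg List.length h
      simp [block] at this
    | cons l ls =>
      rw [List.flatMap_cons, List.flatMap_cons] at h
      have h1 := congrArg (List.takeWhile (fun b => b)) h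
      rw [takeWhile_block, takeWhile_block] at h1
      have h2 : k = l := by
        have := congrArg List.length h1
        simpa using this
      subst h2
      have h3 := List.append_cancel_left h
      rw [ih ls h3]

lemma eval_eq_of_encode_eq {F G : BForm} (h : F.encode = G.encode) (v : ℕ → Bool) :
    F.eval v = G.eval v := by
  rw [encode_eq, encode_eq] at h
  have h1 := flatMap_inj _ _ h
  have h2 := fold_toks v F []
  rw [h1, fold_toks v G []] at h2
  simpa using h2.symm

/-- literals -/
def litF (l : Lit) : BForm := bif l.2 then .var l.1 else .neg (.var l.1)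

/-- code of a literal -/
def litC (l : Lit) : List Bool := block (l.1 + 3) ++ (bif l.2 then [] else block 0)

lemma lit_encode (l : Lit) : (litF l).encode = litC l := by
  obtain ⟨n, b⟩ := l
  cases b <;> simp [litF, litC, BForm.encode]

lemma lit_eval (v : ℕ → Bool) (l : Lit) : (litF l).eval v = true ↔ v l.1 = l.2 := by
  obtain ⟨n, b⟩ := l
  cases b <;> simp [litF, BForm.eval]

/-- clauses -/
def clF (c : Cl) : BForm := .or (.or (litF c.1) (litF c.2.1)) (litF c.2.2)

/-- code of a clause -/
def clC (c : Cl) : List Bool :=
  litC c.1 ++ litC c.2.1 ++ block 2 ++ litC c.2.2 ++ block 2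

lemma cl_encode (c : Cl) : (clF c).encode = clC c := by
  simp [clF, clC, BForm.encode, lit_encode]

lemma cl_eval (v : ℕ → Bool) (c : Cl) : (clF c).eval v = true ↔ Cl.holds v c := by
  unfold clF Cl.holds
  simp only [BForm.eval, Bool.or_eq_true, lit_eval, or_assoc]

/-- a tautology -/
def taut : BForm := .or (.var 0) (.neg (.var 0))

lemma taut_eval (v : ℕ → Bool) : taut.eval v = true := by
  simp [taut, BForm.eval]

/-- the formula -/
def formF (φ : Form) : BForm := φ.foldl (fun F c => .and F (clF c)) taut

/-- code of the formula -/
def g (φ : Form) : List Bool := taut.encode ++ φ.flatMap fun c => clC c ++ block 1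

lemma fold_encode (φ : Form) : ∀ F : BForm, (φ.foldl (fun F c => .and F (clF c)) F).encode =
    F.encode ++ φ.flatMap fun c => clC c ++ block 1 := by
  induction φ with
  | nil => intro F; simp
  | cons c φ ih =>
    intro F
    rw [List.foldl_cons, ih]
    simp [BForm.encode, cl_encode]

lemma fold_eval (v : ℕ → Bool) (φ : Form) : ∀ F : BForm,
    ((φ.foldl (fun F c => .and F (clF c)) F).eval v = true ↔
      (F.eval v = true ∧ ∀ c ∈ φ, Cl.holds v c)) := by
  induction φ with
  | nil => intro F; simp
  | cons c φ ih =>
    intro F
    rw [List.foldl_cons, ih]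
    simp only [BForm.eval, Bool.and_eq_true, cl_eval, List.mem_cons, forall_eq_or_imp]
    tauto

lemma ptime_block {α : Type} [Enc α] {k : α → ℕ} (hk : PTime k) :
    PTime (fun x => block (k x)) :=
  PTime.append (PTime.replicate hk (PTime.const _)) (PTime.const _)

lemma ptime_litC {α : Type} [Enc α] {l : α → Lit} (hl : PTime l) :
    PTime (fun x => litC (l x)) := by
  unfold litC
  exact PTime.append (ptime_block (PTime.add (PTime.fst hl) (PTime.const 3)))
    (PTime.cond (PTime.snd hl) (PTime.const _) (PTime.const _))

lemma ptime_clC {α : Type} [Enc α] {l : α → Cl} (hl : PTime l) :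
    PTime (fun x => clC (l x)) := by
  unfold clC
  exact PTime.append (PTime.append (PTime.append (PTime.append (ptime_litC (PTime.fst hl))
    (ptime_litC (PTime.fst (PTime.snd hl)))) (PTime.const _))
    (ptime_litC (PTime.snd (PTime.snd hl)))) (PTime.const _)

lemma ptime_g : PTime g := by
  unfold g
  refine PTime.append (PTime.const _) ?_
  exact PTime.flatMap (g := fun (_ : Form) c => clC c ++ block 1) PTime.id
    (PTime.append (ptime_clC (PTime.snd PTime.id)) (PTime.const _))

end SATHARD

open SATHARD in
theorem sathard : S_SATHARD := by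
  classical
  refine ⟨g, ptime_g, fun φ => ?_⟩
  have hg : g φ = (formF φ).encode := (fold_encode φ taut).symm
  unfold SAT
  rw [decide_eq_true_iff]
  constructor
  · rintro ⟨v, hv⟩
    refine ⟨formF φ, hg.symm, v, ?_⟩
    exact (fold_eval v φ taut).mpr ⟨taut_eval v, hv⟩
  · rintro ⟨F, hF, v, hv⟩
    refine ⟨v, ?_⟩
    rw [hg] at hF
    rw [eval_eq_of_encode_eq hF v] at hv
    exact ((fold_eval v φ taut).mp hv).2

end Pool.TQ
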