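import Pool.Agent.H74.TQ.Stmts

set_option autoImplicit false

namespace Pool.TQ

open TMLib Polynomial

namespace STRONG

lemma valid_unsat (hR : RhoProps) (c : Ctx) (hK : KeyProps c) (m : ℕ) (k : Form × List Bool)
    (h : c.Valid m k) : ¬ Sat (rho k) := by
  obtain ⟨φ, π⟩ := k
  rcases h with ⟨_, h1, h2⟩ | ⟨h1, h2⟩
  · rw [hR.split]
    rintro (h | h)
    · exact hK.sound _ _ h1 h
    · exact hK.sound _ _ h2 h
  · rw [hR.leaf φ π h1, h2]
    simp

lemma sound (hR : RhoProps) (c : Ctx) (hK : KeyProps c) (m : ℕ) (φ : Form)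
    (h : c.UCert m φ) : ¬ Sat φ := by
  rcases h with h | ⟨π, ψ, _, _, hv, hb, h⟩
  · exact hK.sound m φ h
  · intro hφ
    have hF := valid_unsat hR c hK m _ hv
    rcases h with ⟨h1, h2, h3⟩ | ⟨h1, h2, h3⟩
    · have h4 := (c.specF _ _ h2).mpr h3
      apply h4.2
      rw [c.specQ]
      exact ⟨h1, hφ⟩
    · have hψ : ¬ Sat ψ := by
        intro hψ
        exact (c.specT _ _ hb).mp ⟨hψ, hF⟩ h1
      apply (c.specT _ _ h2).mp _ h3
      constructor
      · rw [c.specP]
        exact Or.inr ⟨hb, h1, hφ⟩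
      · rw [c.specQ]
        exact fun h => hψ h.1

lemma exists_node (hR : RhoProps) (c : Ctx) (m : ℕ) (φ : Form) (hφ : ¬ Sat φ)
    (hE : ¬ c.E m φ) : ∃ π : List Bool, π.length ≤ sz φ ∧ c.Valid m (φ, π) ∧
      ¬ c.E m (rho (φ, π)) := by
  by_contra hcon
  push Not at hcon
  have key : ∀ (d : ℕ) (π : List Bool), π.length + d = sz φ → c.E m (rho (φ, π)) := by
    intro d
    induction d with
    | zero =>
      intro π hπ
      apply hcon π (by omega)
      right
      refine ⟨by simp only; omega, ?_⟩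
      have h1 : ¬ Sat (rho (φ, π)) := fun h => hφ (hR.sat φ π h)
      rw [hR.leaf φ π (by omega)] at h1
      simpa using h1
    | succ d ih =>
      intro π hπ
      apply hcon π (by omega)
      left
      refine ⟨by simp only; omega, ?_, ?_⟩
      · exact ih (π ++ [false]) (by rw [List.length_append]; simp; omega)
      · exact ih (π ++ [true]) (by rw [List.length_append]; simp; omega)
  apply hE
  have := key (sz φ) [] (by simp)
  rwa [hR.nil] at this

lemma strong (hR : RhoProps) (c : Ctx) (hK : KeyProps c) (m : ℕ) (φ : Form) (hφ : ¬ Sat φ)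
    (hU : ¬ c.UCert m φ) : ∃ π : List Bool, π.length ≤ sz φ ∧ c.Strong m (φ, π) := by
  have hE : ¬ c.E m φ := fun h => hU (Or.inl h)
  obtain ⟨π, hπ, hv, hne⟩ := exists_node hR c m φ hφ hE
  refine ⟨π, hπ, ?_⟩
  have hF : ¬ Sat (rho (φ, π)) := fun h => hφ (hR.sat φ π h)
  intro ψ hψm
  unfold Ctx.alg
  simp only [Bool.and_eq_true]
  have hQ : ¬ Sat (c.QF (ψ, rho (φ, π), φ)) := by
    rw [c.specQ]
    exact fun h => hφ h.2
  rcases hb : c.b (ψ, rho (φ, π)) with _ | _
  · have h1 : ¬ Sat ψ := (hK.key m _ ⟨hF, hne⟩ ψ hψm).mpr (Or.inl hb)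
    constructor
    · intro h; exact absurd h h1
    · intro h; exact absurd h.1 (by simp)
  · constructor
    · intro hs
      refine ⟨rfl, ?_⟩
      have hP : Sat (c.PF (ψ, rho (φ, π), φ)) := by
        rw [c.specP]; exact Or.inl hs
      by_contra hn
      have hbf : c.b (c.PF (ψ, rho (φ, π), φ), c.QF (ψ, rho (φ, π), φ)) = false := by
        simpa using hn
      have hG := (c.specF _ _ hbf).mp ⟨hP, hQ⟩
      exact hU (Or.inr ⟨π, ψ, hπ, hψm, hv, hb, Or.inl ⟨hs, hbf, hG⟩⟩)
    · rintro ⟨_, hbt⟩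
      by_contra hs
      have hG1 : Sat (c.G (ψ, rho (φ, π))) := by
        by_contra hn
        exact hs ((c.specT _ _ hb).mpr hn).1
      have hP : ¬ Sat (c.PF (ψ, rho (φ, π), φ)) := by
        rw [c.specP]
        rintro (h | ⟨_, _, h⟩)
        · exact hs h
        · exact hφ h
      have hG2 : Sat (c.G (c.PF (ψ, rho (φ, π), φ), c.QF (ψ, rho (φ, π), φ))) := by
        by_contra hn
        exact hP ((c.specT _ _ hbt).mpr hn).1
      exact hU (Or.inr ⟨π, ψ, hπ, hψm, hv, hb, Or.inr ⟨hG1, hbt, hG2⟩⟩)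

section npp

variable (hR : RhoProps) (c : Ctx) (hK : KeyProps c)

include hR hK

lemma ptimeAlg : PTime c.alg := by
  have h1 : PTime (fun p : (Form × List Bool) × Form => rho p.1) :=
    hR.ptime.comp (PTime.fst PTime.id)
  have h2 : PTime (fun p : (Form × List Bool) × Form => c.b (p.2, rho p.1)) :=
    c.pb.comp (PTime.pair (PTime.snd PTime.id) h1)
  have h3 : PTime (fun p : (Form × List Bool) × Form => (p.2, rho p.1, p.1.1)) :=
    PTime.pair (PTime.snd PTime.id) (PTime.pair h1 (PTime.fst (PTime.fst PTime.id)))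
  exact PTime.and h2 (c.pb.comp (PTime.pair (c.pPF.comp h3) (c.pQF.comp h3)))

lemma nppValid {α : Type} [Enc α] {m : α → ℕ} {φ : α → Form} {π : α → List Bool}
    (hm : PTime m) (hφ : PTime φ) (hπ : PTime π) :
    NPp (fun x => c.Valid (m x) (φ x, π x)) := by
  unfold Ctx.Valid
  refine NPp.or (NPp.and ?_ (NPp.and ?_ ?_)) (NPp.and ?_ ?_)
  · exact NPp.of_ptime (PTime.lt (PTime.length hπ) (PTime.sz' hφ))
  · exact hK.nppE.comp (g := fun x => (m x, rho (φ x, π x ++ [false])))
      (PTime.pair hm (hR.ptime.comp (PTime.pair hφ (PTime.append hπ (PTime.const _)))))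
  · exact hK.nppE.comp (g := fun x => (m x, rho (φ x, π x ++ [true])))
      (PTime.pair hm (hR.ptime.comp (PTime.pair hφ (PTime.append hπ (PTime.const _)))))
  · exact NPp.of_ptime (PTime.le (PTime.sz' hφ) (PTime.length hπ))
  · exact NPp.of_ptime (PTime.eq (hR.ptimeChk.comp (PTime.pair hφ hπ)) (PTime.const _))

lemma nppU : NPp (fun p : ℕ × Form => c.UCert p.1 p.2) := by
  classical
  have key : NPp (fun p : ℕ × Form => ∃ b : List Bool × Form, sz b ≤ 2 + 4 * sz p.2 + p.1 ∧
      (b.1.length ≤ sz p.2 ∧ sz b.2 ≤ p.1 ∧ c.Valid p.1 (p.2, b.1) ∧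
      c.b (b.2, rho (p.2, b.1)) = true ∧
      ((Sat b.2 ∧
          c.b (c.PF (b.2, rho (p.2, b.1), p.2), c.QF (b.2, rho (p.2, b.1), p.2)) = false ∧
          Sat (c.G (c.PF (b.2, rho (p.2, b.1), p.2), c.QF (b.2, rho (p.2, b.1), p.2)))) ∨
        (Sat (c.G (b.2, rho (p.2, b.1))) ∧
          c.b (c.PF (b.2, rho (p.2, b.1), p.2), c.QF (b.2, rho (p.2, b.1), p.2)) = true ∧
          Sat (c.G (c.PF (b.2, rho (p.2, b.1), p.2), c.QF (b.2, rho (p.2, b.1), p.2))))))) := by
    apply NPp.exists_le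
    · have q1 : PTime (fun x : (ℕ × Form) × (List Bool × Form) => x.1.2) := by fun_prop
      have q2 : PTime (fun x : (ℕ × Form) × (List Bool × Form) => x.2.1) := by fun_prop
      have q3 : PTime (fun x : (ℕ × Form) × (List Bool × Form) => x.2.2) := by fun_prop
      have q4 : PTime (fun x : (ℕ × Form) × (List Bool × Form) => x.1.1) := by fun_prop
      have q5 : PTime (fun x : (ℕ × Form) × (List Bool × Form) => rho (x.1.2, x.2.1)) :=
        hR.ptime.comp (PTime.pair q1 q2)
      have q6 : PTime (fun x : (ℕ × Form) × (List Bool × Form) =>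
          (x.2.2, rho (x.1.2, x.2.1))) := PTime.pair q3 q5
      have q7 : PTime (fun x : (ℕ × Form) × (List Bool × Form) =>
          (x.2.2, rho (x.1.2, x.2.1), x.1.2)) := PTime.pair q3 (PTime.pair q5 q1)
      have q8 : PTime (fun x : (ℕ × Form) × (List Bool × Form) =>
          (c.PF (x.2.2, rho (x.1.2, x.2.1), x.1.2), c.QF (x.2.2, rho (x.1.2, x.2.1), x.1.2))) :=
        PTime.pair (c.pPF.comp q7) (c.pQF.comp q7)
      refine NPp.and (NPp.of_ptime (PTime.le (PTime.length q2) (PTime.sz' q1)))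
        (NPp.and (NPp.of_ptime (PTime.le (PTime.sz' q3) q4)) (NPp.and ?_
        (NPp.and (NPp.of_ptime (PTime.eq (c.pb.comp q6) (PTime.const _))) (NPp.or ?_ ?_))))
      · exact nppValid hR c hK q4 q1 q2
      · exact NPp.and (npp_sat' q3) (NPp.and
          (NPp.of_ptime (PTime.eq (c.pb.comp q8) (PTime.const _))) (npp_sat' (c.pG.comp q8)))
      · exact NPp.and (npp_sat' (c.pG.comp q6)) (NPp.and
          (NPp.of_ptime (PTime.eq (c.pb.comp q8) (PTime.const _))) (npp_sat' (c.pG.comp q8)))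
    · have q1 : PTime (fun x : ℕ × Form => x.2) := by fun_prop
      have q2 : PTime (fun x : ℕ × Form => x.1) := by fun_prop
      exact PTime.add (PTime.add (PTime.const _) (PTime.mul (PTime.const _) (PTime.sz' q1))) q2
  refine (NPp.or hK.nppE key).congr ?_
  rintro ⟨m, φ⟩
  unfold Ctx.UCert
  refine or_congr Iff.rfl ?_
  constructor
  · rintro ⟨π, ψ, h1, h2, h3⟩
    refine ⟨(π, ψ), ?_, h1, h2, h3⟩
    have h4 := sz_list_le π (sz φ) 3 h1 (fun b _ => sz_bool_le b)
    rw [sz_pair]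
    simp only
    omega
  · rintro ⟨⟨π, ψ⟩, _, h1, h2, h3⟩
    exact ⟨π, ψ, h1, h2, h3⟩

end npp

end STRONG

theorem strong : S_STRONG := fun hR c hK =>
  ⟨STRONG.nppU hR c hK, STRONG.sound hR c hK, STRONG.strong hR c hK, STRONG.ptimeAlg hR c hK⟩

end Pool.TQ
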